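import Mathlib

/-!
Arbitrarily long extremal square-free permutations.
-/

set_option autoImplicit false

namespace Pool.Agent.K4H76.ExtPerm

/-- two adjacent order-isomorphic blocks of length `ℓ` of `f`, starting at `i` -/
def Sq (f : ℕ → ℚ) (i ℓ : ℕ) : Prop :=
  ∀ a < ℓ, ∀ b < ℓ, (f (i + a) < f (i + b) ↔ f (i + ℓ + a) < f (i + ℓ + b))

/-- signature argument -/
theorem four_dvd {f : ℕ → ℚ} {i ℓ c : ℕ} (h2 : 2 ≤ ℓ) (hs : Sq f i ℓ)
    (h : ∀ j, i ≤ j → j + 1 < i + 2 * ℓ → (f j < f (j + 1) ↔ (j + c) % 4 < 2)) : ℓ % 4 = 0 := by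
  have e1 := hs 0 (by omega) 1 (by omega)
  have a1 := h i le_rfl (by omega)
  have a2 := h (i + ℓ) (by omega) (by omega)
  simp only [Nat.add_zero] at e1
  have k1 : (i + c) % 4 < 2 ↔ (i + ℓ + c) % 4 < 2 := by rw [← a1, ← a2]; exact e1
  rcases Nat.lt_or_ge ℓ 3 with h3 | h3
  · omega
  · have e2 := hs 1 (by omega) 2 (by omega)
    have a3 := h (i + 1) (by omega) (by omega)
    have a4 := h (i + ℓ + 1) (by omega) (by omega)
    have k2 : (i + 1 + c) % 4 < 2 ↔ (i + ℓ + 1 + c) % 4 < 2 := by rw [← a3, ← a4]; exact e2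
    omega

/-- restriction to even indices -/
theorem sq_even {f : ℕ → ℚ} {i m : ℕ} (hs : Sq f i (2 * m)) :
    Sq (fun k => f (2 * k)) ((i + 1) / 2) m := by
  intro a ha b hb
  obtain ⟨e, he, hi⟩ : ∃ e, e ≤ 1 ∧ 2 * ((i + 1) / 2) = i + e :=
    ⟨2 * ((i + 1) / 2) - i, by omega, by omega⟩
  have := hs (e + 2 * a) (by omega) (e + 2 * b) (by omega)
  have h1 : ∀ t, 2 * ((i + 1) / 2 + t) = i + (e + 2 * t) := fun t => by omega
  have h2 : ∀ t, 2 * ((i + 1) / 2 + m + t) = i + 2 * m + (e + 2 * t) := fun t => by omega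
  simp only [h1, h2]
  exact this

/-- The paperfolding-like sequence. -/
def H : ℕ → ℚ
  | 0 => 0
  | n + 1 =>
    if (n + 1) % 2 = 0 then - H ((n + 1) / 2) / 4
    else if (n + 1) % 4 = 1 then 1 + 1 / (((n + 1) / 4 : ℕ) + 1)
    else -(1 + 1 / (((n + 1) / 4 : ℕ) + 1))
decreasing_by omega

theorem H_even (k : ℕ) : H (2 * k) = - H k / 4 := by
  rcases k with _ | k
  · simp [H]
  · rw [show 2 * (k + 1) = (2 * k + 1) + 1 from by ring, H, if_pos (by omega)]
    rw [show (2 * k + 1 + 1) / 2 = k + 1 by omega]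

theorem H_one (k : ℕ) : H (4 * k + 1) = 1 + 1 / ((k : ℚ) + 1) := by
  rw [H, if_neg (by omega), if_pos (by omega), show (4 * k + 1) / 4 = k by omega]

theorem H_three (k : ℕ) : H (4 * k + 3) = -(1 + 1 / ((k : ℚ) + 1)) := by
  rw [show 4 * k + 3 = (4 * k + 2) + 1 from rfl, H, if_neg (by omega), if_neg (by omega),
    show (4 * k + 2 + 1) / 4 = k by omega]

theorem frac_pos (k : ℕ) : (0 : ℚ) < 1 / ((k : ℚ) + 1) := by positivity

theorem frac_le (k : ℕ) : 1 / ((k : ℚ) + 1) ≤ 1 := by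
  rw [div_le_one (by positivity)]
  have : (0 : ℚ) ≤ k := Nat.cast_nonneg k
  linarith

theorem H_bd (n : ℕ) : -2 ≤ H n ∧ H n ≤ 2 := by
  induction n using Nat.strong_induction_on with
  | _ n ih =>
    obtain ⟨k, rfl | rfl⟩ : ∃ k, n = 2 * k ∨ n = 2 * k + 1 := ⟨n / 2, by omega⟩
    · rw [H_even]
      rcases k with _ | k
      · simp [H]
      · have := ih (k + 1) (by omega)
        constructor <;> linarith [this.1, this.2]
    · obtain ⟨j, rfl | rfl⟩ : ∃ j, k = 2 * j ∨ k = 2 * j + 1 := ⟨k / 2, by omega⟩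
      · rw [show 2 * (2 * j) + 1 = 4 * j + 1 by ring, H_one]
        have := frac_pos j; have := frac_le j
        constructor <;> linarith
      · rw [show 2 * (2 * j + 1) + 1 = 4 * j + 3 by ring, H_three]
        have := frac_pos j; have := frac_le j
        constructor <;> linarith

theorem H_even_bd {n : ℕ} (h : n % 2 = 0) : -(1 / 2) ≤ H n ∧ H n ≤ 1 / 2 := by
  obtain ⟨k, rfl⟩ : ∃ k, n = 2 * k := ⟨n / 2, by omega⟩
  rw [H_even]
  have := H_bd k
  constructor <;> linarith [this.1, this.2]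

theorem H_one_bd {n : ℕ} (h : n % 4 = 1) : 1 < H n := by
  obtain ⟨k, rfl⟩ : ∃ k, n = 4 * k + 1 := ⟨n / 4, by omega⟩
  rw [H_one]
  have := frac_pos k
  linarith

theorem H_three_bd {n : ℕ} (h : n % 4 = 3) : H n < -1 := by
  obtain ⟨k, rfl⟩ : ∃ k, n = 4 * k + 3 := ⟨n / 4, by omega⟩
  rw [H_three]
  have := frac_pos k
  linarith

theorem H_sig (n : ℕ) : H n < H (n + 1) ↔ (n + 1) % 4 < 2 := by
  have h4 : n % 4 = 0 ∨ n % 4 = 1 ∨ n % 4 = 2 ∨ n % 4 = 3 := by omega
  rcases h4 with h | h | h | h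
  · have h1 := H_even_bd (n := n) (by omega)
    have h2 := H_one_bd (n := n + 1) (by omega)
    exact ⟨fun _ => by omega, fun _ => by linarith [h1.2]⟩
  · have h1 := H_one_bd (n := n) (by omega)
    have h2 := H_even_bd (n := n + 1) (by omega)
    exact ⟨fun h => by linarith [h2.2], fun _ => by omega⟩
  · have h1 := H_even_bd (n := n) (by omega)
    have h2 := H_three_bd (n := n + 1) (by omega)
    exact ⟨fun h => by linarith [h1.1], fun _ => by omega⟩
  · have h1 := H_three_bd (n := n) (by omega)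
    have h2 := H_even_bd (n := n + 1) (by omega)
    exact ⟨fun _ => by omega, fun _ => by linarith [h2.1]⟩

theorem H_sqfree (ℓ : ℕ) : 2 ≤ ℓ → ∀ i, ¬ Sq H i ℓ := by
  induction ℓ using Nat.strong_induction_on with
  | _ ℓ ih =>
    intro h2 i hs
    have h4 : ℓ % 4 = 0 := four_dvd (c := 1) h2 hs (fun j _ _ => H_sig j)
    obtain ⟨m, rfl⟩ : ∃ m, ℓ = 2 * m := ⟨ℓ / 2, by omega⟩
    have he := sq_even hs
    refine ih m (by omega) (by omega) ((i + 1) / 2) ?_
    intro a ha b hb
    have := he b hb a ha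
    simp only [H_even] at this
    constructor
    · intro h
      have := this.1 (by linarith)
      linarith
    · intro h
      have := this.2 (by linarith)
      linarith

theorem H_inj : ∀ m n : ℕ, 1 ≤ m → 1 ≤ n → H m = H n → m = n := by
  intro m
  induction m using Nat.strong_induction_on with
  | _ m ih =>
    intro n hm hn h
    have h4 : m % 2 = 0 ∨ m % 4 = 1 ∨ m % 4 = 3 := by omega
    have h5 : n % 2 = 0 ∨ n % 4 = 1 ∨ n % 4 = 3 := by omega
    rcases h4 with h4 | h4 | h4 <;> rcases h5 with h5 | h5 | h5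
    · obtain ⟨a, rfl⟩ : ∃ a, m = 2 * a := ⟨m / 2, by omega⟩
      obtain ⟨b, rfl⟩ : ∃ b, n = 2 * b := ⟨n / 2, by omega⟩
      rw [H_even, H_even] at h
      have := ih a (by omega) b (by omega) (by omega) (by linarith)
      omega
    · have h1 := H_even_bd h4
      have h2 := H_one_bd h5
      linarith [h1.2]
    · have h1 := H_even_bd h4
      have h2 := H_three_bd h5
      linarith [h1.1]
    · have h1 := H_even_bd h5
      have h2 := H_one_bd h4
      linarith [h1.2]
    · obtain ⟨a, rfl⟩ : ∃ a, m = 4 * a + 1 := ⟨m / 4, by omega⟩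
      obtain ⟨b, rfl⟩ : ∃ b, n = 4 * b + 1 := ⟨n / 4, by omega⟩
      rw [H_one, H_one] at h
      have h' : 1 / ((a : ℚ) + 1) = 1 / ((b : ℚ) + 1) := by linarith
      rw [one_div, one_div, inv_inj] at h'
      have : (a : ℚ) = b := by linarith
      have : a = b := by exact_mod_cast this
      omega
    · have h1 := H_three_bd h5
      have h2 := H_one_bd h4
      linarith
    · have h1 := H_even_bd h5
      have h2 := H_three_bd h4
      linarith [h1.1]
    · have h1 := H_three_bd h4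
      have h2 := H_one_bd h5
      linarith
    · obtain ⟨a, rfl⟩ : ∃ a, m = 4 * a + 3 := ⟨m / 4, by omega⟩
      obtain ⟨b, rfl⟩ : ∃ b, n = 4 * b + 3 := ⟨n / 4, by omega⟩
      rw [H_three, H_three] at h
      have h' : 1 / ((a : ℚ) + 1) = 1 / ((b : ℚ) + 1) := by linarith
      rw [one_div, one_div, inv_inj] at h'
      have : (a : ℚ) = b := by linarith
      have : a = b := by exact_mod_cast this
      omega

/-- the sequence of the valleys -/
def u (T j : ℕ) : ℚ :=
  if j = 0 then -3 else if j + 8 ≤ 2 * T then H j else (j : ℚ) - 2 * T + 10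

theorem u_zero (T : ℕ) : u T 0 = -3 := by simp [u]

theorem u_mid {T j : ℕ} (h0 : j ≠ 0) (h : j + 8 ≤ 2 * T) : u T j = H j := by
  rw [u, if_neg h0, if_pos h]

theorem u_end {T j : ℕ} (h0 : j ≠ 0) (h : 2 * T < j + 8) : u T j = (j : ℚ) - 2 * T + 10 := by
  rw [u, if_neg h0, if_neg (by omega)]

theorem u_bd {T j : ℕ} (h : j ≤ 2 * T) : -3 ≤ u T j ∧ u T j ≤ 10 := by
  by_cases h0 : j = 0
  · subst h0; rw [u_zero]; norm_num
  by_cases h1 : j + 8 ≤ 2 * T
  · rw [u_mid h0 h1]
    have := H_bd j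
    constructor <;> linarith [this.1, this.2]
  · rw [u_end h0 (by omega)]
    have h2 : (2 * T : ℚ) < j + 8 := by exact_mod_cast (show 2 * T < j + 8 by omega)
    have h3 : (j : ℚ) ≤ 2 * T := by exact_mod_cast h
    constructor <;> linarith

theorem u_inj {T i j : ℕ} (hi : i ≤ 2 * T) (hj : j ≤ 2 * T) (h : u T i = u T j) : i = j := by
  by_cases i0 : i = 0 <;> by_cases j0 : j = 0
  · omega
  · exfalso
    subst i0; rw [u_zero] at h
    by_cases h1 : j + 8 ≤ 2 * T
    · rw [u_mid j0 h1] at h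
      have := H_bd j
      linarith [this.1]
    · rw [u_end j0 (by omega)] at h
      have h2 : (2 * T : ℚ) < j + 8 := by exact_mod_cast (show 2 * T < j + 8 by omega)
      linarith
  · exfalso
    subst j0; rw [u_zero] at h
    by_cases h1 : i + 8 ≤ 2 * T
    · rw [u_mid i0 h1] at h
      have := H_bd i
      linarith [this.1]
    · rw [u_end i0 (by omega)] at h
      have h2 : (2 * T : ℚ) < i + 8 := by exact_mod_cast (show 2 * T < i + 8 by omega)
      linarith
  · by_cases i1 : i + 8 ≤ 2 * T <;> by_cases j1 : j + 8 ≤ 2 * T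
    · rw [u_mid i0 i1, u_mid j0 j1] at h
      exact H_inj i j (by omega) (by omega) h
    · exfalso
      rw [u_mid i0 i1, u_end j0 (by omega)] at h
      have h2 : (2 * T : ℚ) < j + 8 := by exact_mod_cast (show 2 * T < j + 8 by omega)
      have := H_bd i
      linarith [this.2]
    · exfalso
      rw [u_mid j0 j1, u_end i0 (by omega)] at h
      have h2 : (2 * T : ℚ) < i + 8 := by exact_mod_cast (show 2 * T < i + 8 by omega)
      have := H_bd j
      linarith [this.2]
    · rw [u_end i0 (by omega), u_end j0 (by omega)] at h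
      have : (i : ℚ) = j := by linarith
      exact_mod_cast this

theorem u_sqfree {T i m : ℕ} (h2 : 2 ≤ m) (hi : i + 2 * m + 7 ≤ 2 * T) : ¬ Sq (u T) i m := by
  intro hs
  rcases Nat.eq_zero_or_pos i with rfl | hpos
  · have h4 : m % 4 = 0 := by
      refine four_dvd (c := 1) h2 hs ?_
      intro j _ hj
      rcases Nat.eq_zero_or_pos j with rfl | hjp
      · rw [u_zero, u_mid (by omega) (by omega)]
        have := H_bd (0 + 1)
        exact ⟨fun _ => by omega, fun _ => by linarith [this.1]⟩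
      · rw [u_mid (by omega) (by omega), u_mid (by omega) (by omega)]
        exact H_sig j
    have h5 := hs 0 (by omega) 3 (by omega)
    simp only [Nat.zero_add, Nat.add_zero] at h5
    rw [u_zero, u_mid (j := 3) (by omega) (by omega), u_mid (j := m) (by omega) (by omega),
      u_mid (j := m + 3) (by omega) (by omega)] at h5
    have a1 := H_bd 3
    have a2 := H_even_bd (n := m) (by omega)
    have a3 := H_three_bd (n := m + 3) (by omega)
    have a4 := h5.1 (by linarith [a1.1])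
    linarith [a2.1]
  · refine H_sqfree m h2 i ?_
    intro a ha b hb
    have := hs a ha b hb
    rw [u_mid (by omega) (by omega), u_mid (by omega) (by omega), u_mid (by omega) (by omega),
      u_mid (by omega) (by omega)] at this
    exact this

/-- the tie breaker of the low even class -/
def A (T : ℕ) (j : ℕ) : ℚ := |4 * (j : ℚ) - 2 * T + 1| / (4 * T + 4)

theorem A_bd {T j : ℕ} (h : j ≤ T) : 0 ≤ A T j ∧ A T j < 1 := by
  have h1 : (j : ℚ) ≤ T := by exact_mod_cast h
  have h0 : (0 : ℚ) ≤ j := Nat.cast_nonneg j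
  constructor
  · unfold A; positivity
  · unfold A
    rw [div_lt_one (by linarith)]
    rw [abs_lt]
    constructor <;> linarith

theorem A_inj {T i j : ℕ} (h : A T i = A T j) : i = j := by
  unfold A at h
  have hp : (0 : ℚ) < 4 * T + 4 := by positivity
  rw [div_left_inj' hp.ne'] at h
  rcases abs_eq_abs.1 h with h | h
  · have : (i : ℚ) = j := by linarith
    exact_mod_cast this
  · exfalso
    have : (4 * (i : ℤ) - 2 * T + 1) = -(4 * (j : ℤ) - 2 * T + 1) := by exact_mod_cast h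
    omega

/-- the extremal permutation -/
def X (T i : ℕ) : ℚ :=
  if i % 4 = 3 then -100 + u T (i / 4)
  else if i % 4 = 1 then 100 - u T (2 * T - i / 4)
  else if i % 4 = 2 then (((i / 4 : ℕ) : ℚ) - T) / (T + 1)
  else if i % 8 = 0 then -10 + A T (i / 8)
  else 10 - A T (T - i / 8)

theorem X3 (T j : ℕ) : X T (4 * j + 3) = -100 + u T j := by
  rw [X, if_pos (by omega), show (4 * j + 3) / 4 = j by omega]

theorem X1 (T j : ℕ) : X T (4 * j + 1) = 100 - u T (2 * T - j) := by
  rw [X, if_neg (by omega), if_pos (by omega), show (4 * j + 1) / 4 = j by omega]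

theorem X2 (T j : ℕ) : X T (4 * j + 2) = ((j : ℚ) - T) / (T + 1) := by
  rw [X, if_neg (by omega), if_neg (by omega), if_pos (by omega),
    show (4 * j + 2) / 4 = j by omega]

theorem X0 (T j : ℕ) : X T (8 * j) = -10 + A T j := by
  rw [X, if_neg (by omega), if_neg (by omega), if_neg (by omega), if_pos (by omega),
    show (8 * j) / 8 = j by omega]

theorem X4 (T j : ℕ) : X T (8 * j + 4) = 10 - A T (T - j) := by
  rw [X, if_neg (by omega), if_neg (by omega), if_neg (by omega), if_neg (by omega),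
    show (8 * j + 4) / 8 = j by omega]

theorem X3_bd {T i : ℕ} (h : i % 4 = 3) (hi : i ≤ 8 * T + 4) : -103 ≤ X T i ∧ X T i ≤ -90 := by
  obtain ⟨j, rfl⟩ : ∃ j, i = 4 * j + 3 := ⟨i / 4, by omega⟩
  rw [X3]
  have := u_bd (T := T) (j := j) (by omega)
  constructor <;> linarith [this.1, this.2]

theorem X1_bd {T i : ℕ} (h : i % 4 = 1) (hi : i ≤ 8 * T + 4) : 90 ≤ X T i ∧ X T i ≤ 103 := by
  obtain ⟨j, rfl⟩ : ∃ j, i = 4 * j + 1 := ⟨i / 4, by omega⟩
  rw [X1]
  have := u_bd (T := T) (j := 2 * T - j) (by omega)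
  constructor <;> linarith [this.1, this.2]

theorem X2_bd {T i : ℕ} (h : i % 4 = 2) (hi : i ≤ 8 * T + 4) : -1 < X T i ∧ X T i < 1 := by
  obtain ⟨j, rfl⟩ : ∃ j, i = 4 * j + 2 := ⟨i / 4, by omega⟩
  rw [X2]
  have h0 : (0 : ℚ) ≤ j := Nat.cast_nonneg j
  have hp : (0 : ℚ) < (T : ℚ) + 1 := by positivity
  have h1 : (j : ℚ) ≤ 2 * T := by exact_mod_cast (show j ≤ 2 * T by omega)
  constructor
  · rw [lt_div_iff₀ hp]; linarith
  · rw [div_lt_iff₀ hp]; linarith

theorem X0_bd {T i : ℕ} (h : i % 8 = 0) (hi : i ≤ 8 * T + 4) : -10 ≤ X T i ∧ X T i < -9 := by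
  obtain ⟨j, rfl⟩ : ∃ j, i = 8 * j := ⟨i / 8, by omega⟩
  rw [X0]
  have := A_bd (T := T) (j := j) (by omega)
  constructor <;> linarith [this.1, this.2]

theorem X4_bd {T i : ℕ} (h : i % 8 = 4) (hi : i ≤ 8 * T + 4) : 9 < X T i ∧ X T i ≤ 10 := by
  obtain ⟨j, rfl⟩ : ∃ j, i = 8 * j + 4 := ⟨i / 8, by omega⟩
  rw [X4]
  have := A_bd (T := T) (j := T - j) (by omega)
  constructor <;> linarith [this.1, this.2]

theorem Xe_bd {T i : ℕ} (h : i % 2 = 0) (hi : i ≤ 8 * T + 4) : -10 ≤ X T i ∧ X T i ≤ 10 := by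
  have : i % 8 = 0 ∨ i % 8 = 4 ∨ i % 4 = 2 := by omega
  rcases this with h | h | h
  · have := X0_bd h hi; constructor <;> linarith [this.1, this.2]
  · have := X4_bd h hi; constructor <;> linarith [this.1, this.2]
  · have := X2_bd h hi; constructor <;> linarith [this.1, this.2]

theorem X_inj {T i j : ℕ} (hi : i ≤ 8 * T + 4) (hj : j ≤ 8 * T + 4) (h : X T i = X T j) :
    i = j := by
  have c1 : i % 4 = 3 ∨ i % 4 = 1 ∨ i % 4 = 2 ∨ i % 8 = 0 ∨ i % 8 = 4 := by omega
  have c2 : j % 4 = 3 ∨ j % 4 = 1 ∨ j % 4 = 2 ∨ j % 8 = 0 ∨ j % 8 = 4 := by omega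
  rcases c1 with c1 | c1 | c1 | c1 | c1 <;> rcases c2 with c2 | c2 | c2 | c2 | c2
  · obtain ⟨a, rfl⟩ : ∃ a, i = 4 * a + 3 := ⟨i / 4, by omega⟩
    obtain ⟨b, rfl⟩ : ∃ b, j = 4 * b + 3 := ⟨j / 4, by omega⟩
    rw [X3, X3] at h
    have := u_inj (T := T) (i := a) (j := b) (by omega) (by omega) (by linarith)
    omega
  · exfalso; have := X3_bd c1 hi; have := X1_bd c2 hj; linarith [this.1]
  · exfalso; have := X3_bd c1 hi; have := X2_bd c2 hj; linarith [this.1]
  · exfalso; have := X3_bd c1 hi; have := X0_bd c2 hj; linarith [this.1]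
  · exfalso; have := X3_bd c1 hi; have := X4_bd c2 hj; linarith [this.1]
  · exfalso; have := X1_bd c1 hi; have := X3_bd c2 hj; linarith [this.1]
  · obtain ⟨a, rfl⟩ : ∃ a, i = 4 * a + 1 := ⟨i / 4, by omega⟩
    obtain ⟨b, rfl⟩ : ∃ b, j = 4 * b + 1 := ⟨j / 4, by omega⟩
    rw [X1, X1] at h
    have := u_inj (T := T) (i := 2 * T - a) (j := 2 * T - b) (by omega) (by omega) (by linarith)
    omega
  · exfalso; have := X1_bd c1 hi; have := X2_bd c2 hj; linarith [this.1]
  · exfalso; have := X1_bd c1 hi; have := X0_bd c2 hj; linarith [this.1]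
  · exfalso; have := X1_bd c1 hi; have := X4_bd c2 hj; linarith [this.1]
  · exfalso; have := X2_bd c1 hi; have := X3_bd c2 hj; linarith [this.1]
  · exfalso; have := X2_bd c1 hi; have := X1_bd c2 hj; linarith [this.1]
  · obtain ⟨a, rfl⟩ : ∃ a, i = 4 * a + 2 := ⟨i / 4, by omega⟩
    obtain ⟨b, rfl⟩ : ∃ b, j = 4 * b + 2 := ⟨j / 4, by omega⟩
    rw [X2, X2] at h
    have hp : (0 : ℚ) < (T : ℚ) + 1 := by positivity
    rw [div_left_inj' hp.ne'] at h
    have : (a : ℚ) = b := by linarith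
    have : a = b := by exact_mod_cast this
    omega
  · exfalso; have := X2_bd c1 hi; have := X0_bd c2 hj; linarith [this.1]
  · exfalso; have := X2_bd c1 hi; have := X4_bd c2 hj; linarith [this.1]
  · exfalso; have := X0_bd c1 hi; have := X3_bd c2 hj; linarith [this.1]
  · exfalso; have := X0_bd c1 hi; have := X1_bd c2 hj; linarith [this.1]
  · exfalso; have := X0_bd c1 hi; have := X2_bd c2 hj; linarith [this.1]
  · obtain ⟨a, rfl⟩ : ∃ a, i = 8 * a := ⟨i / 8, by omega⟩
    obtain ⟨b, rfl⟩ : ∃ b, j = 8 * b := ⟨j / 8, by omega⟩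
    rw [X0, X0] at h
    have := A_inj (T := T) (i := a) (j := b) (by linarith)
    omega
  · exfalso; have := X0_bd c1 hi; have := X4_bd c2 hj; linarith [this.1]
  · exfalso; have := X4_bd c1 hi; have := X3_bd c2 hj; linarith [this.1]
  · exfalso; have := X4_bd c1 hi; have := X1_bd c2 hj; linarith [this.1]
  · exfalso; have := X4_bd c1 hi; have := X2_bd c2 hj; linarith [this.1]
  · exfalso; have := X4_bd c1 hi; have := X0_bd c2 hj; linarith [this.1]
  · obtain ⟨a, rfl⟩ : ∃ a, i = 8 * a + 4 := ⟨i / 8, by omega⟩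
    obtain ⟨b, rfl⟩ : ∃ b, j = 8 * b + 4 := ⟨j / 8, by omega⟩
    rw [X4, X4] at h
    have := A_inj (T := T) (i := T - a) (j := T - b) (by linarith)
    omega

end Pool.Agent.K4H76.ExtPerm
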