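import Pool.Agent.K4H76.ExtPerm

/-!
Arbitrarily long extremal square-free permutations, part 2.
-/

set_option autoImplicit false

namespace Pool.Agent.K4H76.ExtPerm

theorem X_anti {T i : ℕ} (hi : i ≤ 8 * T + 4) : X T (8 * T + 4 - i) = - X T i := by
  have c1 : i % 4 = 3 ∨ i % 4 = 1 ∨ i % 4 = 2 ∨ i % 8 = 0 ∨ i % 8 = 4 := by omega
  rcases c1 with c | c | c | c | c
  · obtain ⟨a, rfl⟩ : ∃ a, i = 4 * a + 3 := ⟨i / 4, by omega⟩
    rw [show 8 * T + 4 - (4 * a + 3) = 4 * (2 * T - a) + 1 by omega, X1, X3,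
      show 2 * T - (2 * T - a) = a by omega]
    ring
  · obtain ⟨a, rfl⟩ : ∃ a, i = 4 * a + 1 := ⟨i / 4, by omega⟩
    rw [show 8 * T + 4 - (4 * a + 1) = 4 * (2 * T - a) + 3 by omega, X1, X3]
    ring
  · obtain ⟨a, rfl⟩ : ∃ a, i = 4 * a + 2 := ⟨i / 4, by omega⟩
    rw [show 8 * T + 4 - (4 * a + 2) = 4 * (2 * T - a) + 2 by omega, X2, X2,
      Nat.cast_sub (by omega)]
    push_cast
    ring
  · obtain ⟨a, rfl⟩ : ∃ a, i = 8 * a := ⟨i / 8, by omega⟩
    rw [show 8 * T + 4 - 8 * a = 8 * (T - a) + 4 by omega, X4, X0,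
      show T - (T - a) = a by omega]
    ring
  · obtain ⟨a, rfl⟩ : ∃ a, i = 8 * a + 4 := ⟨i / 8, by omega⟩
    rw [show 8 * T + 4 - (8 * a + 4) = 8 * (T - a) by omega, X4, X0]
    ring

theorem X_sig {T i : ℕ} (hi : i + 1 ≤ 8 * T + 4) : X T i < X T (i + 1) ↔ (i + 1) % 4 < 2 := by
  have c1 : i % 4 = 0 ∨ i % 4 = 1 ∨ i % 4 = 2 ∨ i % 4 = 3 := by omega
  rcases c1 with c | c | c | c
  · have h1 := Xe_bd (T := T) (i := i) (by omega) (by omega)
    have h2 := X1_bd (T := T) (i := i + 1) (by omega) (by omega)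
    exact ⟨fun _ => by omega, fun _ => by linarith [h1.2, h2.1]⟩
  · have h1 := X1_bd (T := T) (i := i) (by omega) (by omega)
    have h2 := Xe_bd (T := T) (i := i + 1) (by omega) (by omega)
    exact ⟨fun h => by linarith [h1.1, h2.2], fun _ => by omega⟩
  · have h1 := Xe_bd (T := T) (i := i) (by omega) (by omega)
    have h2 := X3_bd (T := T) (i := i + 1) (by omega) (by omega)
    exact ⟨fun h => by linarith [h1.1, h2.2], fun _ => by omega⟩
  · have h1 := X3_bd (T := T) (i := i) (by omega) (by omega)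
    have h2 := Xe_bd (T := T) (i := i + 1) (by omega) (by omega)
    exact ⟨fun _ => by omega, fun _ => by linarith [h1.2, h2.1]⟩

theorem Z_sig {T k : ℕ} (hk : 2 * (k + 1) ≤ 8 * T + 4) :
    X T (2 * k) < X T (2 * (k + 1)) ↔ (k + 0) % 4 < 2 := by
  have c1 : k % 4 = 0 ∨ k % 4 = 1 ∨ k % 4 = 2 ∨ k % 4 = 3 := by omega
  rcases c1 with c | c | c | c
  · have h1 := X0_bd (T := T) (i := 2 * k) (by omega) (by omega)
    have h2 := X2_bd (T := T) (i := 2 * (k + 1)) (by omega) (by omega)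
    exact ⟨fun _ => by omega, fun _ => by linarith [h1.2, h2.1]⟩
  · have h1 := X2_bd (T := T) (i := 2 * k) (by omega) (by omega)
    have h2 := X4_bd (T := T) (i := 2 * (k + 1)) (by omega) (by omega)
    exact ⟨fun _ => by omega, fun _ => by linarith [h1.2, h2.1]⟩
  · have h1 := X4_bd (T := T) (i := 2 * k) (by omega) (by omega)
    have h2 := X2_bd (T := T) (i := 2 * (k + 1)) (by omega) (by omega)
    exact ⟨fun h => by linarith [h1.1, h2.2], fun _ => by omega⟩
  · have h1 := X2_bd (T := T) (i := 2 * k) (by omega) (by omega)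
    have h2 := X0_bd (T := T) (i := 2 * (k + 1)) (by omega) (by omega)
    exact ⟨fun h => by linarith [h1.1, h2.2], fun _ => by omega⟩

theorem X_sqfree {T i ℓ : ℕ} (hT : 20 ≤ T) (h2 : 2 ≤ ℓ) (hi : i + 2 * ℓ ≤ 8 * T + 5) :
    ¬ Sq (X T) i ℓ := by
  intro hs
  have h4 : ℓ % 4 = 0 := four_dvd (c := 1) h2 hs (fun j _ _ => X_sig (by omega))
  obtain ⟨k, rfl⟩ : ∃ k, ℓ = 2 * k := ⟨ℓ / 2, by omega⟩
  have hz := sq_even hs
  have h4' : k % 4 = 0 := four_dvd (c := 0) (by omega) hz (fun j _ _ => Z_sig (by omega))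
  obtain ⟨r, rfl⟩ : ∃ r, k = 4 * r := ⟨k / 4, by omega⟩
  -- now the period is `8 r`, and both the valleys and the peaks have squares of length `2 r`
  have hu : Sq (u T) (i / 4) (2 * r) := by
    intro a ha b hb
    have key := hs (4 * (i / 4) + 3 - i + 4 * a) (by omega) (4 * (i / 4) + 3 - i + 4 * b) (by omega)
    rw [show i + (4 * (i / 4) + 3 - i + 4 * a) = 4 * (i / 4 + a) + 3 by omega,
      show i + (4 * (i / 4) + 3 - i + 4 * b) = 4 * (i / 4 + b) + 3 by omega,
      show i + 2 * (4 * r) + (4 * (i / 4) + 3 - i + 4 * a) = 4 * (i / 4 + 2 * r + a) + 3 by omega,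
      show i + 2 * (4 * r) + (4 * (i / 4) + 3 - i + 4 * b) = 4 * (i / 4 + 2 * r + b) + 3 by omega,
      X3, X3, X3, X3, add_lt_add_iff_left, add_lt_add_iff_left] at key
    exact key
  have hw : Sq (u T) (2 * T + 1 - (i + 2) / 4 - 4 * r) (2 * r) := by
    intro a ha b hb
    -- the index `q + a` corresponds to the peak `2 T - (q + a)`
    have key := hs (4 * (2 * T - (2 * T + 1 - (i + 2) / 4 - 4 * r + 2 * r + b)) + 1 - i) (by omega)
      (4 * (2 * T - (2 * T + 1 - (i + 2) / 4 - 4 * r + 2 * r + a)) + 1 - i) (by omega)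
    rw [show i + (4 * (2 * T - (2 * T + 1 - (i + 2) / 4 - 4 * r + 2 * r + b)) + 1 - i) =
        4 * (2 * T - (2 * T + 1 - (i + 2) / 4 - 4 * r + 2 * r + b)) + 1 by omega,
      show i + (4 * (2 * T - (2 * T + 1 - (i + 2) / 4 - 4 * r + 2 * r + a)) + 1 - i) =
        4 * (2 * T - (2 * T + 1 - (i + 2) / 4 - 4 * r + 2 * r + a)) + 1 by omega,
      show i + 2 * (4 * r) + (4 * (2 * T - (2 * T + 1 - (i + 2) / 4 - 4 * r + 2 * r + b)) + 1 - i) =
        4 * (2 * T - (2 * T + 1 - (i + 2) / 4 - 4 * r + b)) + 1 by omega,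
      show i + 2 * (4 * r) + (4 * (2 * T - (2 * T + 1 - (i + 2) / 4 - 4 * r + 2 * r + a)) + 1 - i) =
        4 * (2 * T - (2 * T + 1 - (i + 2) / 4 - 4 * r + a)) + 1 by omega,
      X1, X1, X1, X1,
      show 2 * T - (2 * T - (2 * T + 1 - (i + 2) / 4 - 4 * r + 2 * r + b)) =
        2 * T + 1 - (i + 2) / 4 - 4 * r + 2 * r + b by omega,
      show 2 * T - (2 * T - (2 * T + 1 - (i + 2) / 4 - 4 * r + 2 * r + a)) =
        2 * T + 1 - (i + 2) / 4 - 4 * r + 2 * r + a by omega,
      show 2 * T - (2 * T - (2 * T + 1 - (i + 2) / 4 - 4 * r + b)) =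
        2 * T + 1 - (i + 2) / 4 - 4 * r + b by omega,
      show 2 * T - (2 * T - (2 * T + 1 - (i + 2) / 4 - 4 * r + a)) =
        2 * T + 1 - (i + 2) / 4 - 4 * r + a by omega,
      sub_lt_sub_iff_left, sub_lt_sub_iff_left] at key
    exact key.symm
  by_cases c1 : i / 4 + 2 * (2 * r) + 7 ≤ 2 * T
  · exact u_sqfree (by omega) c1 hu
  by_cases c2 : 8 ≤ (i + 2) / 4
  · exact u_sqfree (by omega) (by omega) hw
  -- big windows
  have hTq : (20 : ℚ) ≤ T := by exact_mod_cast hT
  have key := hs (40 - i) (by omega) (32 - i) (by omega)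
  rw [show i + (40 - i) = 8 * 5 by omega, show i + (32 - i) = 8 * 4 by omega,
    show i + 2 * (4 * r) + (40 - i) = 8 * (5 + r) by omega,
    show i + 2 * (4 * r) + (32 - i) = 8 * (4 + r) by omega,
    X0, X0, X0, X0, add_lt_add_iff_left, add_lt_add_iff_left] at key
  have hp : (0 : ℚ) < 4 * T + 4 := by positivity
  have h1 : A T 5 < A T 4 := by
    unfold A
    rw [div_lt_div_iff_of_pos_right hp]
    rw [abs_of_nonpos (by push_cast; linarith), abs_of_nonpos (by push_cast; linarith)]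
    push_cast; linarith
  have h2 : A T (4 + r) < A T (5 + r) := by
    unfold A
    have hr : (2 * T : ℚ) ≤ 13 + 4 * r := by exact_mod_cast (show 2 * T ≤ 13 + 4 * r by omega)
    rw [div_lt_div_iff_of_pos_right hp]
    rw [abs_of_nonneg (by push_cast; linarith), abs_of_nonneg (by push_cast; linarith)]
    push_cast; linarith
  have := key.1 h1
  linarith

/-- Inserting `v` in the slot `p`. -/
def ins (f : ℕ → ℚ) (p : ℕ) (v : ℚ) (i : ℕ) : ℚ :=
  if i < p then f i else if i = p then v else f (i - 1)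

theorem sq_of_sorted (g : ℕ → ℚ) (i ℓ : ℕ) (l : List ℕ) (hl : ∀ a < ℓ, a ∈ l)
    (h1 : (l.map (fun a => g (i + a))).IsChain (· < ·))
    (h2 : (l.map (fun a => g (i + ℓ + a))).IsChain (· < ·)) : Sq g i ℓ := by
  rw [List.isChain_iff_pairwise, List.pairwise_iff_getElem] at h1 h2
  intro a ha b hb
  obtain ⟨p, hp, rfl⟩ := List.getElem_of_mem (hl a ha)
  obtain ⟨q, hq, rfl⟩ := List.getElem_of_mem (hl b hb)
  simp only [List.length_map, List.getElem_map] at h1 h2
  rcases lt_trichotomy p q with h | h | h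
  · exact ⟨fun _ => h2 p q hp hq h, fun _ => h1 p q hp hq h⟩
  · subst h
    simp
  · have k1 := h1 q p hq hp h
    have k2 := h2 q p hq hp h
    exact ⟨fun h => absurd h (not_lt.2 k1.le), fun h => absurd h (not_lt.2 k2.le)⟩

theorem H1 : H 1 = 2 := by
  have := H_one 0; norm_num at this; exact this
theorem H2 : H 2 = -1 / 2 := by
  have := H_even 1; rw [H1] at this; norm_num at this ⊢; exact this
theorem H3 : H 3 = -2 := by
  have := H_three 0; norm_num at this; exact this
theorem H4 : H 4 = 1 / 8 := by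
  have := H_even 2; rw [H2] at this; norm_num at this ⊢; exact this
theorem H5 : H 5 = 3 / 2 := by
  have := H_one 1; norm_num at this ⊢; exact this
theorem H6 : H 6 = 1 / 2 := by
  have := H_even 3; rw [H3] at this; norm_num at this ⊢; exact this

theorem vals {T : ℕ} (hT : 20 ≤ T) : ∃ t : ℚ, 0 < t ∧ t ≤ 1 / 84 ∧
    (∀ j : ℕ, X T (4 * j + 2) = -1 + 4 * (j + 1) * t) ∧
    (∀ j : ℕ, j ≤ 3 → X T (8 * j) = -19 / 2 - (3 + 4 * j) * t) ∧
    (∀ j : ℕ, j ≤ 3 → X T (8 * j + 4) = 19 / 2 + (4 * j + 1) * t) ∧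
    (∀ j : ℕ, j ≤ 7 → X T (4 * j + 1) = 90 + j) := by
  have hTq : (20 : ℚ) ≤ T := by exact_mod_cast hT
  have hp : (0 : ℚ) < 4 * T + 4 := by positivity
  have hp' : (0 : ℚ) < (T : ℚ) + 1 := by positivity
  refine ⟨1 / (4 * T + 4), by positivity, ?_, ?_, ?_, ?_, ?_⟩
  · rw [div_le_div_iff₀ hp (by norm_num)]
    linarith
  · intro j
    rw [X2]
    field_simp
    ring
  · intro j hj
    have hj' : (j : ℚ) ≤ 3 := by exact_mod_cast hj
    rw [X0, A, abs_of_nonpos (by linarith)]
    field_simp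
    ring
  · intro j hj
    have hj' : (j : ℚ) ≤ 3 := by exact_mod_cast hj
    rw [X4, A, Nat.cast_sub (by omega), abs_of_nonneg (by linarith)]
    field_simp
    ring
  · intro j hj
    rw [X1, u_end (by omega) (by omega), Nat.cast_sub (by omega)]
    push_cast
    ring

theorem left_ext {T p : ℕ} {v : ℚ} (hT : 20 ≤ T) (hp : p ≤ 2)
    (hv : ∀ i ≤ 8 * T + 4, X T i ≠ v) :
    ∃ i ℓ, 2 ≤ ℓ ∧ i + 2 * ℓ ≤ 8 * T + 6 ∧ Sq (ins (X T) p v) i ℓ := by
  obtain ⟨t, t0, t1, hB, hA, hC, hD⟩ := vals hT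
  have e0 := hA 0 (by omega)
  have e8 := hA 1 (by omega)
  have e16 := hA 2 (by omega)
  have e24 := hA 3 (by omega)
  have e4 := hC 0 (by omega)
  have e12 := hC 1 (by omega)
  have e20 := hC 2 (by omega)
  have e28 := hC 3 (by omega)
  have e1 := hD 0 (by omega)
  have e5 := hD 1 (by omega)
  have e9 := hD 2 (by omega)
  have e13 := hD 3 (by omega)
  have e17 := hD 4 (by omega)
  have e21 := hD 5 (by omega)
  have e25 := hD 6 (by omega)
  have e29 := hD 7 (by omega)
  have e2 := hB 0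
  have e6 := hB 1
  have e10 := hB 2
  have e14 := hB 3
  have e18 := hB 4
  have e22 := hB 5
  have e26 := hB 6
  have e30 := hB 7
  have e3 := X3 T 0
  have e7 := X3 T 1
  have e11 := X3 T 2
  have e15 := X3 T 3
  have e19 := X3 T 4
  have e23 := X3 T 5
  have e27 := X3 T 6
  rw [u_zero] at e3
  rw [u_mid (by omega) (by omega), H1] at e7
  rw [u_mid (by omega) (by omega), H2] at e11
  rw [u_mid (by omega) (by omega), H3] at e15
  rw [u_mid (by omega) (by omega), H4] at e19
  rw [u_mid (by omega) (by omega), H5] at e23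
  rw [u_mid (by omega) (by omega), H6] at e27
  norm_num at e0 e1 e2 e3 e4 e5 e6 e7 e8 e9 e10 e11 e12 e13 e14 e15
  norm_num at e16 e17 e18 e19 e20 e21 e22 e23 e24 e25 e26 e27 e28 e29 e30
  have v0 := hv 0 (by omega)
  have v1 := hv 1 (by omega)
  have v2 := hv 2 (by omega)
  have v3 := hv 3 (by omega)
  rw [e0] at v0
  rw [e1] at v1
  rw [e2] at v2
  rw [e3] at v3
  interval_cases p
  · rcases lt_or_gt_of_ne v0 with h0 | h0
    · refine ⟨0, 2, le_rfl, by omega, sq_of_sorted _ _ _ [1, 0] (by decide) ?_ ?_⟩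
      · simp [ins, e0]; linarith
      · simp [ins, e1, e2]; linarith
    · rcases lt_or_gt_of_ne v3 with h3 | h3
      · refine ⟨0, 8, by omega, by omega,
          sq_of_sorted _ _ _ [4, 0, 1, 3, 7, 5, 2, 6] (by decide) ?_ ?_⟩
        · simp [ins, e0, e1, e2, e3, e4, e5, e6]
          and_intros <;> linarith
        · simp [ins, e7, e8, e9, e10, e11, e12, e13, e14]
          and_intros <;> linarith
      · refine ⟨0, 16, by omega, by omega,
          sq_of_sorted _ _ _ [0, 4, 12, 8, 9, 1, 3, 7, 11, 15, 5, 13, 2, 6, 10, 14]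
            (by decide) ?_ ?_⟩
        · simp [ins, e0, e1, e2, e3, e4, e5, e6, e7, e8, e9, e10, e11, e12, e13, e14]
          and_intros <;> linarith
        · simp [ins, e15, e16, e17, e18, e19, e20, e21, e22, e23, e24, e25, e26, e27, e28, e29, e30]
          and_intros <;> linarith
  · rcases lt_or_gt_of_ne v0 with h0 | h0
    · rcases lt_or_gt_of_ne v2 with h3 | h3
      · rcases lt_or_gt_of_ne v1 with h4 | h4
        · refine ⟨1, 2, le_rfl, by omega, sq_of_sorted _ _ _ [1, 0] (by decide) ?_ ?_⟩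
          · simp [ins, e1]; linarith
          · simp [ins, e2, e3]; linarith
        · refine ⟨0, 4, by omega, by omega, sq_of_sorted _ _ _ [0, 3, 1, 2] (by decide) ?_ ?_⟩
          · simp [ins, e0, e1, e2]
            and_intros <;> linarith
          · simp [ins, e3, e4, e5, e6]
            and_intros <;> linarith
      · refine ⟨0, 8, by omega, by omega,
          sq_of_sorted _ _ _ [4, 0, 1, 3, 7, 5, 2, 6] (by decide) ?_ ?_⟩
        · simp [ins, e0, e1, e2, e3, e4, e5, e6]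
          and_intros <;> linarith
        · simp [ins, e7, e8, e9, e10, e11, e12, e13, e14]
          and_intros <;> linarith
    · refine ⟨0, 2, le_rfl, by omega, sq_of_sorted _ _ _ [1, 0] (by decide) ?_ ?_⟩
      · simp [ins, e0]; linarith
      · simp [ins, e1, e2]; linarith
  · rcases lt_or_gt_of_ne v2 with h3 | h3
    · rcases lt_or_gt_of_ne v1 with h4 | h4
      · refine ⟨0, 4, by omega, by omega, sq_of_sorted _ _ _ [0, 3, 1, 2] (by decide) ?_ ?_⟩
        · simp [ins, e0, e1, e2]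
          and_intros <;> linarith
        · simp [ins, e3, e4, e5, e6]
          and_intros <;> linarith
      · refine ⟨1, 2, le_rfl, by omega, sq_of_sorted _ _ _ [1, 0] (by decide) ?_ ?_⟩
        · simp [ins, e1]; linarith
        · simp [ins, e2, e3]; linarith
    · refine ⟨0, 2, le_rfl, by omega, sq_of_sorted _ _ _ [0, 1] (by decide) ?_ ?_⟩
      · simp [ins, e0, e1]; linarith
      · simp [ins, e2]; linarith

end Pool.Agent.K4H76.ExtPerm
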