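import Pool.Agent.K4H72.Til.Spec

open Set

namespace Pool.Agent.K4H72.Til

/-- T11: unique continuation on the triangular lattice (lexicographically maximal point v of the support, equation at v + (1,0)) -/
theorem lattice (f : ℤ × ℤ → ℂ) (hf : (Function.support f).Finite) (c : ℂ)
    (h : ∀ v, ∑ e ∈ six, (f (v + e) - f v) = c * f v) : f = 0 := by
  by_contra hne
  have hS : hf.toFinset.Nonempty := by
    rw [Set.Finite.toFinset_nonempty]
    exact Function.support_nonempty_iff.2 hne
  obtain ⟨v, hvS, hmax⟩ := Finset.exists_max_image hf.toFinset (fun v => toLex v) hS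
  have hv : f v ≠ 0 := by simpa using hvS
  have hzero : ∀ a b : ℤ, (v.1 < a ∨ (v.1 = a ∧ v.2 < b)) → f (a, b) = 0 := by
    intro a b hab
    by_contra hn
    have h1 : (a, b) ∈ hf.toFinset := by simpa using hn
    have h2 := hmax _ h1
    have h3 : toLex v < toLex (a, b) := by
      rw [Prod.Lex.lt_iff]
      exact hab
    exact absurd h2 (not_le.2 h3)
  have key := h (v.1 + 1, v.2)
  have e0 : f (v.1 + 1, v.2) = 0 := hzero _ _ (Or.inl (by omega))
  rw [e0, mul_zero] at key
  unfold six at key
  rw [Finset.sum_insert (by decide), Finset.sum_insert (by decide), Finset.sum_insert (by decide),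
    Finset.sum_insert (by decide), Finset.sum_insert (by decide), Finset.sum_singleton] at key
  simp only [Prod.mk_add_mk, sub_zero] at key
  rw [hzero (v.1 + 1 + 1) (v.2 + 0) (Or.inl (by omega)), hzero (v.1 + 1 + 0) (v.2 + 1) (Or.inl (by omega)),
    hzero (v.1 + 1 + 0) (v.2 + -1) (Or.inl (by omega)), hzero (v.1 + 1 + 1) (v.2 + -1) (Or.inl (by omega)),
    hzero (v.1 + 1 + -1) (v.2 + 1) (Or.inr (by constructor <;> omega))] at key
  have e1 : v.1 + 1 + -1 = v.1 := by ring
  simp only [e1, add_zero, zero_add] at key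
  exact hv key

end Pool.Agent.K4H72.Til
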